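import Mathlib

set_option autoImplicit false

namespace Pool.Agent.H.MP_7edec4_co

/-- The vertices `k`-hop `l`-reachable from `v`. -/
def GReach {V : Type} [LinearOrder V] (G : SimpleGraph V) (k l : ℕ) (v : V) : Set V :=
  {u | ∃ (s : ℕ) (x : ℕ → V), s ≤ l ∧ x 0 = v ∧ x s = u ∧ (∀ i < s, G.Adj (x i) (x (i + 1))) ∧
    Set.InjOn x (Set.Iic s) ∧ (∀ i < s, u < x i) ∧
    {j | 1 ≤ j ∧ j ≤ s ∧ ∀ i < j, x j < x i}.ncard ≤ k}

/-- `gcol_{k,l}(G)`: minimum over linear orders of the largest reach set. -/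
noncomputable def gcol {V : Type} (G : SimpleGraph V) (k l : ℕ) : ℕ :=
  sInf {m | ∃ σ : LinearOrder V, ∀ v, (@GReach V σ G k l v).ncard ≤ m}

/-- Property (P). -/
def HasP (k : ℕ → ℕ) : Prop :=
  ∀ C : (V : Type) → [Finite V] → SimpleGraph V → Prop,
    (∃ p : Polynomial ℝ, ∀ (V : Type) [Finite V] (G : SimpleGraph V), C V G →
      ∀ l : ℕ, 1 ≤ l → (gcol G 1 l : ℝ) ≤ p.eval (l : ℝ)) →
    ∃ q : Polynomial ℝ, ∀ (V : Type) [Finite V] (G : SimpleGraph V), C V G →
      ∀ l : ℕ, 1 ≤ l → (gcol G (k l) l : ℝ) ≤ q.eval (l : ℝ)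

section general

variable {V : Type} [LinearOrder V] (G : SimpleGraph V)

theorem nm_fin (x : ℕ → V) (s : ℕ) : {j | 1 ≤ j ∧ j ≤ s ∧ ∀ i < j, x j < x i}.Finite :=
  (Set.finite_Iic s).subset fun _ h => h.2.1

theorem reach_mono {k k' l l' : ℕ} (hk : k ≤ k') (hl : l ≤ l') (v : V) :
    GReach G k l v ⊆ GReach G k' l' v := by
  rintro u ⟨s, x, h1, h2, h3, h4, h5, h6, h7⟩
  exact ⟨s, x, h1.trans hl, h2, h3, h4, h5, h6, h7.trans hk⟩

theorem self_mem (k l : ℕ) (v : V) : v ∈ GReach G k l v := by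
  refine ⟨0, fun _ => v, Nat.zero_le _, rfl, rfl, by simp, ?_, by simp, ?_⟩
  · intro a ha b hb _
    simp only [Set.mem_Iic] at ha hb
    omega
  · have : {j | 1 ≤ j ∧ j ≤ 0 ∧ ∀ i < j, v < v} = (∅ : Set ℕ) := by
      ext j
      simp only [Set.mem_ofPred_eq, Set.mem_empty_iff_false, iff_false]
      omega
    rw [this]
    simp

theorem first_smaller (x : ℕ → V) (s l : ℕ) (hs : s ≤ l) (hadj : ∀ i < s, G.Adj (x i) (x (i + 1)))
    (hinj : Set.InjOn x (Set.Iic s)) (h : ∃ j, j ≤ s ∧ x j < x 0) :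
    ∃ j, 1 ≤ j ∧ j ≤ s ∧ (∀ i < j, x j < x i) ∧ x j ∈ GReach G 1 l (x 0) := by
  classical
  have hj := Nat.find_spec h
  set j := Nat.find h with hjd
  have hmin : ∀ i < j, x 0 ≤ x i := by
    intro i hi
    have := Nat.find_min h hi
    by_contra hc
    exact this ⟨by omega, not_le.1 hc⟩
  have j1 : 1 ≤ j := by
    by_contra hc
    have : j = 0 := by omega
    rw [this] at hj
    exact lt_irrefl _ hj.2
  have hlt : ∀ i < j, x j < x i := fun i hi => hj.2.trans_le (hmin i hi)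
  refine ⟨j, j1, hj.1, hlt, j, x, hj.1.trans hs, rfl, rfl, fun i hi => hadj i (by omega),
    hinj.mono (Set.Iic_subset_Iic.2 hj.1), hlt, ?_⟩
  refine le_trans (Set.ncard_le_ncard (t := {j}) ?_ (Set.finite_singleton j)) (by simp)
  rintro a ⟨a1, a2, a3⟩
  by_contra hc
  have : a < j := lt_of_le_of_ne a2 hc
  exact absurd (a3 0 (by omega)) (not_lt.2 (hmin a this))

theorem reach_zero (l : ℕ) (v : V) : GReach G 0 l v ⊆ {v} := by
  rintro u ⟨s, x, -, h2, h3, -, -, h6, h7⟩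
  rcases Nat.eq_zero_or_pos s with rfl | hs
  · exact h3.symm.trans h2
  · exfalso
    have : s ∈ {j | 1 ≤ j ∧ j ≤ s ∧ ∀ i < j, x j < x i} := ⟨hs, le_rfl, h3 ▸ h6⟩
    have := (Set.ncard_pos (nm_fin x s)).2 ⟨s, this⟩
    omega

theorem reach_succ (k l : ℕ) (v u : V) (h : u ∈ GReach G (k + 1) l v) :
    ∃ a ∈ GReach G 1 l v, u ∈ GReach G k l a := by
  obtain ⟨s, x, h1, h2, h3, h4, h5, h6, h7⟩ := h
  rcases Nat.eq_zero_or_pos s with rfl | hs
  · have : u = v := h3.symm.trans h2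
    exact ⟨v, self_mem G _ _ _, this ▸ self_mem G _ _ _⟩
  obtain ⟨j, j1, j2, j3, j4⟩ := first_smaller G x s l h1 h4 h5 ⟨s, le_rfl, h3 ▸ h6 0 hs⟩
  refine ⟨x j, h2 ▸ j4, s - j, fun n => x (j + n), by omega, rfl, ?_, ?_, ?_, ?_, ?_⟩
  · show x (j + (s - j)) = u
    rw [Nat.add_sub_cancel' j2, h3]
  · intro i hi
    exact h4 (j + i) (by omega)
  · intro a ha b hb e
    simp only [Set.mem_Iic] at ha hb
    have := h5 (show j + a ∈ Set.Iic s by simp only [Set.mem_Iic]; omega)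
      (show j + b ∈ Set.Iic s by simp only [Set.mem_Iic]; omega) e
    omega
  · intro i hi
    exact h6 (j + i) (by omega)
  · have hjm : j ∈ {j | 1 ≤ j ∧ j ≤ s ∧ ∀ i < j, x j < x i} := ⟨j1, j2, j3⟩
    have e1 := Set.ncard_sdiff_singleton_add_one hjm (nm_fin x s)
    have e2 : {n | 1 ≤ n ∧ n ≤ s - j ∧ ∀ i < n, x (j + n) < x (j + i)}.ncard ≤
        ({j | 1 ≤ j ∧ j ≤ s ∧ ∀ i < j, x j < x i} \ {j}).ncard := by
      refine Set.ncard_le_ncard_of_injOn (fun n => j + n) ?_ ?_ ((nm_fin x s).sdiff)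
      · rintro n ⟨n1, n2, n3⟩
        refine ⟨⟨by omega, by omega, fun i hi => ?_⟩, by simp; omega⟩
        by_cases hij : i < j
        · exact (n3 0 (by omega)).trans (j3 i hij)
        · have := n3 (i - j) (by omega)
          rwa [Nat.add_sub_cancel' (by omega)] at this
      · intro a _ b _ e
        simpa using e
    show {n | 1 ≤ n ∧ n ≤ s - j ∧ ∀ i < n, x (j + n) < x (j + i)}.ncard ≤ k
    omega

theorem reach_pow [Finite V] (l c : ℕ) (hc : ∀ v, (GReach G 1 l v).ncard ≤ c) (k : ℕ) :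
    ∀ v, (GReach G k l v).ncard ≤ c ^ k := by
  classical
  induction k with
  | zero =>
    intro v
    exact le_trans (Set.ncard_le_ncard (reach_zero G l v) (Set.finite_singleton v)) (by simp)
  | succ k ih =>
    intro v
    have h1 : GReach G (k + 1) l v ⊆
        (((Set.toFinite (GReach G 1 l v)).toFinset.biUnion
          fun a => (Set.toFinite (GReach G k l a)).toFinset : Finset V) : Set V) := by
      intro u hu
      obtain ⟨a, ha, hu⟩ := reach_succ G k l v u hu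
      simp only [Finset.coe_biUnion, Set.mem_iUnion, Finset.mem_coe, Set.Finite.mem_toFinset]
      exact ⟨a, ha, hu⟩
    refine (Set.ncard_le_ncard h1 (Set.toFinite _)).trans ?_
    rw [Set.ncard_coe_finset]
    refine (Finset.card_biUnion_le_card_mul _ _ (c ^ k) ?_).trans ?_
    · intro a _
      rw [← Set.ncard_eq_toFinset_card]
      exact ih a
    · rw [← Set.ncard_eq_toFinset_card, pow_succ, mul_comm]
      exact Nat.mul_le_mul_left _ (hc v)

theorem strong_int (l : ℕ) (v u : V) (h : u ∈ GReach G 1 l v) :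
    ∃ (s : ℕ) (x : ℕ → V), s ≤ l ∧ x 0 = v ∧ x s = u ∧ (∀ i < s, G.Adj (x i) (x (i + 1))) ∧
      (∀ i < s, v ≤ x i) ∧ (s = 0 ∨ u < v) := by
  obtain ⟨s, x, h1, h2, h3, h4, h5, h6, h7⟩ := h
  refine ⟨s, x, h1, h2, h3, h4, fun i hi => ?_, ?_⟩
  · by_contra hc
    obtain ⟨j, j1, j2, j3, -⟩ := first_smaller G x i l (by omega) (fun a ha => h4 a (by omega))
      (h5.mono (Set.Iic_subset_Iic.2 hi.le)) ⟨i, le_rfl, h2 ▸ not_le.1 hc⟩
    have hsub : ({j, s} : Set ℕ) ⊆ {j | 1 ≤ j ∧ j ≤ s ∧ ∀ i < j, x j < x i} := by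
      rintro a (rfl | rfl)
      · exact ⟨j1, by omega, j3⟩
      · exact ⟨by omega, le_rfl, h3 ▸ h6⟩
    have := Set.ncard_le_ncard hsub (nm_fin x s)
    rw [Set.ncard_pair (by omega)] at this
    omega
  · rcases Nat.eq_zero_or_pos s with h | h
    · exact Or.inl h
    · exact Or.inr (h2 ▸ h6 0 h)

/-- Reachability along a path on which a level function decreases. -/
def RR (lv : V → ℕ) (k l : ℕ) (v u : V) : Prop :=
  ∃ (s : ℕ) (x : ℕ → V), s ≤ l ∧ x 0 = v ∧ x s = u ∧ (∀ i < s, G.Adj (x i) (x (i + 1))) ∧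
    (∀ i < s, lv (x (i + 1)) < lv (x i)) ∧ (∀ i < s, u < x i) ∧
    {j | 1 ≤ j ∧ j ≤ s ∧ ∀ i < j, x j < x i}.ncard ≤ k

omit [LinearOrder V] in
theorem inj_of_lv (lv : V → ℕ) (x : ℕ → V) (s : ℕ) (h : ∀ i < s, lv (x (i + 1)) < lv (x i)) :
    Set.InjOn x (Set.Iic s) := by
  have key : ∀ a d, a + d + 1 ≤ s → lv (x (a + d + 1)) < lv (x a) := by
    intro a d
    induction d with
    | zero => intro hd; exact h a (by omega)
    | succ d ih => intro hd; exact (h (a + d + 1) (by omega)).trans (ih (by omega))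
  intro a ha b hb e
  simp only [Set.mem_Iic] at ha hb
  rcases lt_trichotomy a b with hab | hab | hab
  · have := key a (b - a - 1) (by omega)
    rw [show a + (b - a - 1) + 1 = b by omega, e] at this
    omega
  · exact hab
  · have := key b (a - b - 1) (by omega)
    rw [show b + (a - b - 1) + 1 = a by omega, e] at this
    omega

theorem RR_reach (lv : V → ℕ) (k l : ℕ) (v u : V) (h : RR G lv k l v u) :
    u ∈ GReach G k l v := by
  obtain ⟨s, x, h1, h2, h3, h4, h5, h6, h7⟩ := h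
  exact ⟨s, x, h1, h2, h3, h4, inj_of_lv lv x s h5, h6, h7⟩

theorem RR_mono (lv : V → ℕ) {k k' l l' : ℕ} (hk : k ≤ k') (hl : l ≤ l') (v u : V)
    (h : RR G lv k l v u) : RR G lv k' l' v u := by
  obtain ⟨s, x, h1, h2, h3, h4, h5, h6, h7⟩ := h
  exact ⟨s, x, h1.trans hl, h2, h3, h4, h5, h6, h7.trans hk⟩

theorem RR_self (lv : V → ℕ) (v : V) : RR G lv 0 0 v v := by
  refine ⟨0, fun _ => v, le_rfl, rfl, rfl, by simp, by simp, by simp, ?_⟩
  have : {j | 1 ≤ j ∧ j ≤ 0 ∧ ∀ i < j, v < v} = (∅ : Set ℕ) := by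
    ext j
    simp only [Set.mem_ofPred_eq, Set.mem_empty_iff_false, iff_false]
    omega
  rw [this]
  simp

theorem RR_prepend (lv : V → ℕ) (k l t : ℕ) (y : ℕ → V) (u : V)
    (hadj : ∀ i < t, G.Adj (y i) (y (i + 1))) (hlv : ∀ i < t, lv (y (i + 1)) < lv (y i))
    (hint : ∀ i < t, y 0 ≤ y i) (hlast : y t < y 0) (h : RR G lv k l (y t) u) :
    RR G lv (k + 1) (l + t) (y 0) u := by
  obtain ⟨s, x, h1, h2, h3, h4, h5, h6, h7⟩ := h
  have ht : 0 < t := by
    by_contra hc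
    have : t = 0 := by omega
    rw [this] at hlast
    exact lt_irrefl _ hlast
  let z : ℕ → V := fun n => if n < t then y n else x (n - t)
  have z1 : ∀ n, n ≤ t → z n = y n := by
    intro n hn
    by_cases h : n < t
    · exact if_pos h
    · have : n = t := by omega
      subst this
      simp only [z, lt_irrefl, if_false, Nat.sub_self, h2]
  have z2 : ∀ n, z (t + n) = x n := by
    intro n
    simp only [z, show ¬ (t + n < t) by omega, if_false, Nat.add_sub_cancel_left]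
  have hu : u ≤ y t := by
    rcases Nat.eq_zero_or_pos s with rfl | hs
    · rw [← h3, h2]
    · exact (h2 ▸ h6 0 hs).le
  refine ⟨t + s, z, by omega, z1 0 (by omega), (z2 s).trans h3, ?_, ?_, ?_, ?_⟩
  · intro i hi
    by_cases h : i < t
    · rw [z1 i h.le, z1 (i + 1) h]; exact hadj i h
    · obtain ⟨n, rfl⟩ := Nat.exists_eq_add_of_le (not_lt.1 h)
      rw [z2, Nat.add_assoc, z2]; exact h4 n (by omega)
  · intro i hi
    by_cases h : i < t
    · rw [z1 i h.le, z1 (i + 1) h]; exact hlv i h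
    · obtain ⟨n, rfl⟩ := Nat.exists_eq_add_of_le (not_lt.1 h)
      rw [z2, Nat.add_assoc, z2]; exact h5 n (by omega)
  · intro i hi
    by_cases h : i < t
    · rw [z1 i h.le]; exact hu.trans_lt (hlast.trans_le (hint i h))
    · obtain ⟨n, rfl⟩ := Nat.exists_eq_add_of_le (not_lt.1 h)
      rw [z2]; exact h6 n (by omega)
  · have hsub : {j | 1 ≤ j ∧ j ≤ t + s ∧ ∀ i < j, z j < z i} ⊆
        insert t ((fun n => t + n) '' {j | 1 ≤ j ∧ j ≤ s ∧ ∀ i < j, x j < x i}) := by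
      rintro j ⟨j1, j2, j3⟩
      by_cases h : j < t
      · have := j3 0 (by omega)
        rw [z1 j h.le, z1 0 (by omega)] at this
        exact absurd this (not_lt.2 (hint j h))
      · obtain ⟨n, rfl⟩ := Nat.exists_eq_add_of_le (not_lt.1 h)
        rcases Nat.eq_zero_or_pos n with rfl | hn
        · exact Or.inl rfl
        · refine Or.inr ⟨n, ⟨hn, by omega, fun i hi => ?_⟩, rfl⟩
          have := j3 (t + i) (by omega)
          rwa [z2, z2] at this
    refine (Set.ncard_le_ncard hsub (((nm_fin x s).image _).insert t)).trans ?_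
    refine (Set.ncard_insert_le _ _).trans ?_
    have := Set.ncard_image_le (f := fun n => t + n) (nm_fin x s)
    omega

end general

theorem gcol_le {V : Type} (G : SimpleGraph V) (k l m : ℕ) (σ : LinearOrder V)
    (h : ∀ v, (@GReach V σ G k l v).ncard ≤ m) : gcol G k l ≤ m :=
  Nat.sInf_le ⟨σ, h⟩

theorem gcol_spec {V : Type} [Finite V] (G : SimpleGraph V) (k l : ℕ) :
    ∃ σ : LinearOrder V, ∀ v, (@GReach V σ G k l v).ncard ≤ gcol G k l := by
  classical
  have : {m | ∃ σ : LinearOrder V, ∀ v, (@GReach V σ G k l v).ncard ≤ m}.Nonempty :=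
    ⟨Nat.card V, linearOrderOfSTO WellOrderingRel, fun v => Set.ncard_le_card _⟩
  exact Nat.sInf_mem this

theorem hasP_of_bdd (k : ℕ → ℕ) (K : ℕ) (hK : ∀ l, 1 ≤ l → k l ≤ K) : HasP k := by
  rintro C ⟨p, hp⟩
  refine ⟨p ^ K, fun V _ G hG l hl => ?_⟩
  obtain ⟨σ, hσ⟩ := gcol_spec G 1 l
  have h1 : gcol G (k l) l ≤ gcol G 1 l ^ K := by
    refine gcol_le G _ _ _ σ fun v => ?_
    exact (Set.ncard_le_ncard (reach_mono G (hK l hl) le_rfl v) (Set.toFinite _)).trans
      (reach_pow G l _ hσ K v)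
  rw [Polynomial.eval_pow]
  calc (gcol G (k l) l : ℝ) ≤ ((gcol G 1 l : ℕ) : ℝ) ^ K := by exact_mod_cast h1
    _ ≤ _ := pow_le_pow_left₀ (Nat.cast_nonneg _) (hp V G hG l hl) K

end Pool.Agent.H.MP_7edec4_co
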