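import Pool.Agent.H.MP_7edec4_co.Defs

set_option autoImplicit false

namespace Pool.Agent.H.MP_7edec4_co

abbrev W (L : ℕ) : Type := List (Fin L) × ℕ × ℕ × ℕ

def br {L : ℕ} (x : List (Fin L)) : W L := (x, 0, 0, 0)

def pt {L : ℕ} (t : ℕ) (x : List (Fin L)) (i p s : ℕ) : W L :=
  if s = 0 then br x else if s < t then (x, i, p, s) else br (x.take i)

theorem pt_zero {L : ℕ} (t : ℕ) (x : List (Fin L)) (i p : ℕ) : pt t x i p 0 = br x := by
  simp [pt]

theorem pt_mid {L : ℕ} (t : ℕ) (x : List (Fin L)) (i p s : ℕ) (h0 : 0 < s) (h1 : s < t) :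
    pt t x i p s = (x, i, p, s) := by
  simp [pt, h0.ne', h1]

theorem pt_top {L : ℕ} (t : ℕ) (x : List (Fin L)) (i p s : ℕ) (h0 : 0 < t) (h1 : t ≤ s) :
    pt t x i p s = br (x.take i) := by
  simp [pt, show s ≠ 0 by omega, not_lt.2 h1]

theorem pt_fst {L : ℕ} (t : ℕ) (x : List (Fin L)) (i p s : ℕ) (h1 : s < t) :
    (pt t x i p s).1 = x := by
  rcases Nat.eq_zero_or_pos s with rfl | h
  · rw [pt_zero]; rfl
  · rw [pt_mid _ _ _ _ _ h h1]

theorem pt_s {L : ℕ} (t : ℕ) (x : List (Fin L)) (i p s : ℕ) (h1 : s < t) :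
    (pt t x i p s).2.2.2 = s := by
  rcases Nat.eq_zero_or_pos s with rfl | h
  · rw [pt_zero]; rfl
  · rw [pt_mid _ _ _ _ _ h h1]

def ok (L t : ℕ) (w : W L) : Prop := w.1.length ≤ L ∧ w.2.1 ≤ L ∧ w.2.2.1 ≤ L ∧ w.2.2.2 ≤ t

def VV (L t : ℕ) : Type := {w : W L // ok L t w}

instance (L t : ℕ) : Finite (VV L t) := by
  have : {w : W L | ok L t w}.Finite := by
    refine (((List.finite_length_le (Fin L) L).prod ((Set.finite_Iic L).prod
      ((Set.finite_Iic L).prod (Set.finite_Iic t))))).subset ?_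
    rintro w ⟨h1, h2, h3, h4⟩
    exact ⟨h1, h2, h3, h4⟩
  exact this.to_subtype

theorem ok_br {L : ℕ} (t : ℕ) (x : List (Fin L)) (hx : x.length ≤ L) : ok L t (br x) :=
  ⟨hx, Nat.zero_le _, Nat.zero_le _, Nat.zero_le _⟩

theorem ok_pt {L : ℕ} (t : ℕ) (x : List (Fin L)) (i p s : ℕ) (hx : x.length ≤ L) (hi : i ≤ L)
    (hp : p ≤ L) : ok L t (pt t x i p s) := by
  unfold pt
  split_ifs with h1 h2
  · exact ok_br t x hx
  · exact ⟨hx, hi, hp, h2.le⟩
  · exact ok_br t _ (by rw [List.length_take]; omega)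

def GG (L t : ℕ) (T : ℕ → ℕ → Prop) : SimpleGraph (VV L t) :=
  SimpleGraph.fromRel fun u w => ∃ x i p s, T i x.length ∧ p < L ∧ s < t ∧
    u.1 = pt t x i p s ∧ w.1 = pt t x i p (s + 1)

theorem adj_cases {L t : ℕ} {T : ℕ → ℕ → Prop} {u w : VV L t} (h : (GG L t T).Adj u w) :
    ∃ x i p s s', T i x.length ∧ s ≤ t ∧ s' ≤ t ∧ (s' = s + 1 ∨ s = s' + 1) ∧
      u.1 = pt t x i p s ∧ w.1 = pt t x i p s' := by
  rw [GG, SimpleGraph.fromRel_adj] at h
  rcases h.2 with ⟨x, i, p, s, h1, -, h3, h4, h5⟩ | ⟨x, i, p, s, h1, -, h3, h4, h5⟩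
  · exact ⟨x, i, p, s, s + 1, h1, h3.le, h3, Or.inl rfl, h4, h5⟩
  · exact ⟨x, i, p, s + 1, s, h1, h3, h3.le, Or.inr rfl, h5, h4⟩

def lv {L t : ℕ} (w : VV L t) : ℕ := w.1.1.length * t - w.1.2.2.2

def seg {L : ℕ} (t : ℕ) (x : List (Fin L)) (hx : x.length ≤ L) (i p : ℕ) (hi : i ≤ L)
    (hp : p ≤ L) (s : ℕ) : VV L t := ⟨pt t x i p s, ok_pt t x i p s hx hi hp⟩

def brV {L : ℕ} (t : ℕ) (x : List (Fin L)) (hx : x.length ≤ L) : VV L t := ⟨br x, ok_br t x hx⟩

theorem seg_lv {L : ℕ} (t : ℕ) (x : List (Fin L)) (hx : x.length ≤ L) (i p : ℕ) (hi : i ≤ L)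
    (hp : p ≤ L) (hix : i < x.length) (s : ℕ) (hs : s < t) :
    lv (seg t x hx i p hi hp (s + 1)) < lv (seg t x hx i p hi hp s) := by
  have e0 : lv (seg t x hx i p hi hp s) = x.length * t - s := by
    simp only [lv, seg, pt_fst _ _ _ _ _ hs, pt_s _ _ _ _ _ hs]
  have hm : (i + 1) * t ≤ x.length * t := Nat.mul_le_mul_right _ hix
  rw [Nat.add_mul, one_mul] at hm
  rw [e0]
  by_cases h : s + 1 < t
  · have e1 : lv (seg t x hx i p hi hp (s + 1)) = x.length * t - (s + 1) := by
      simp only [lv, seg, pt_fst _ _ _ _ _ h, pt_s _ _ _ _ _ h]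
    rw [e1]
    omega
  · have e1 : lv (seg t x hx i p hi hp (s + 1)) = i * t := by
      simp only [lv, seg, pt_top t x i p (s + 1) (by omega) (by omega), br, List.length_take,
        Nat.sub_zero, min_eq_left hix.le]
    rw [e1]
    omega

theorem seg_adj {L : ℕ} (t : ℕ) (T : ℕ → ℕ → Prop) (x : List (Fin L)) (hx : x.length ≤ L)
    (i p : ℕ) (hi : i ≤ L) (hp : p < L) (hix : i < x.length) (hT : T i x.length) (s : ℕ)
    (hs : s < t) :
    (GG L t T).Adj (seg t x hx i p hi hp.le s) (seg t x hx i p hi hp.le (s + 1)) := by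
  rw [GG, SimpleGraph.fromRel_adj]
  refine ⟨fun e => ?_, Or.inl ⟨x, i, p, s, hT, hp, hs, rfl, rfl⟩⟩
  have := seg_lv t x hx i p hi hp.le hix s hs
  rw [e] at this
  exact lt_irrefl _ this

section lower

variable {L t : ℕ} {T : ℕ → ℕ → Prop} [LinearOrder (VV L t)]

theorem big_of_inj {V : Type} [Finite V] (S : Set V) (L : ℕ) (f : Fin L → V)
    (hf : Function.Injective f) (h : ∀ a, f a ∈ S) : L ≤ S.ncard := by
  have := Set.ncard_le_ncard_of_injOn (s := Set.univ) f (fun a _ => h a) hf.injOn (Set.toFinite S)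
  simpa [Set.ncard_univ] using this

theorem hop (ht : 0 < t) (hs : ∀ v, (GReach (GG L t T) 1 t v).ncard < L) (x : List (Fin L))
    (hx : x.length ≤ L) (i : ℕ) (hi : i ≤ L) (hix : i < x.length) (hT : T i x.length) :
    ∃ (p : ℕ) (hp : p < L), ∀ s < t, seg t x hx i p hi hp.le 0 ≤ seg t x hx i p hi hp.le s := by
  by_contra hc
  push Not at hc
  have key : ∀ p : Fin L, ∃ j, 1 ≤ j ∧ j < t ∧
      seg t x hx i p hi p.2.le j ∈ GReach (GG L t T) 1 t (brV t x hx) := by
    intro p
    obtain ⟨s, s1, s2⟩ := hc p p.2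
    obtain ⟨j, j1, j2, -, j4⟩ := first_smaller (GG L t T) (seg t x hx i p hi p.2.le) (t - 1) t
      (by omega) (fun a ha => seg_adj t T x hx i p hi p.2 hix hT a (by omega))
      (inj_of_lv lv _ _ fun a ha => seg_lv t x hx i p hi p.2.le hix a (by omega))
      ⟨s, by omega, s2⟩
    refine ⟨j, j1, by omega, ?_⟩
    have e : seg t x hx i p hi p.2.le 0 = brV t x hx := Subtype.ext (pt_zero t x i p)
    rwa [e] at j4
  choose j j1 j2 j3 using key
  refine absurd (big_of_inj _ L (fun p => seg t x hx i p hi p.2.le (j p)) ?_ j3)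
    (not_le.2 (hs _))
  intro p q e
  have := congrArg (fun w : VV L t => w.1.2.2.1) e
  simp only [seg, pt_mid _ _ _ _ _ (j1 p) (j2 p), pt_mid _ _ _ _ _ (j1 q) (j2 q)] at this
  exact Fin.ext this

theorem child (ht : 0 < t) (hs : ∀ v, (GReach (GG L t T) 1 t v).ncard < L) (y : List (Fin L))
    (hy : y.length < L) : ∃ a : Fin L, ∀ (x : List (Fin L)) (hx : x.length ≤ L),
      y ++ [a] <+: x → T y.length x.length → brV t y hy.le < brV t x hx := by
  by_contra hc
  push Not at hc
  choose x hx h1 h2 h3 using hc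
  have hlen : ∀ a, y.length < (x a).length := by
    intro a
    have := (h1 a).length_le
    simp only [List.length_append, List.length_singleton] at this
    omega
  have htake : ∀ a, (x a).take y.length = y := by
    intro a
    have : y <+: x a := (List.prefix_append y [a]).trans (h1 a)
    exact (List.prefix_iff_eq_take.1 this).symm
  have hL : 0 < L := by omega
  have key : ∀ a : Fin L, ∃ j, j < t ∧
      seg t (x a) (hx a) y.length 0 hy.le hL.le j ∈ GReach (GG L t T) 1 t (brV t y hy.le) := by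
    intro a
    have e0 : seg t (x a) (hx a) y.length 0 hy.le hL.le (t - 0) = brV t y hy.le := by
      apply Subtype.ext
      simp only [seg, brV, pt_top t (x a) y.length 0 (t - 0) ht (by omega), htake]
    have e1 : seg t (x a) (hx a) y.length 0 hy.le hL.le (t - t) = brV t (x a) (hx a) := by
      apply Subtype.ext
      simp only [seg, brV, Nat.sub_self, pt_zero]
    have hinj := inj_of_lv lv _ t fun n hn =>
      seg_lv t (x a) (hx a) y.length 0 hy.le hL.le (hlen a) n hn
    obtain ⟨j, j1, j2, -, j4⟩ := first_smaller (GG L t T)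
      (fun n => seg t (x a) (hx a) y.length 0 hy.le hL.le (t - n)) t t le_rfl
      (fun n hn => by
        have := seg_adj t T (x a) (hx a) y.length 0 hy.le hL (hlen a) (h2 a) (t - (n + 1))
          (by omega)
        rw [show t - (n + 1) + 1 = t - n by omega] at this
        exact this.symm)
      (fun m hm n hn e => by
        simp only [Set.mem_Iic] at hm hn
        have := hinj (show t - m ∈ Set.Iic t by simp) (show t - n ∈ Set.Iic t by simp) e
        omega)
      ⟨t, le_rfl, by
        show seg t (x a) (hx a) y.length 0 hy.le hL.le (t - t) <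
          seg t (x a) (hx a) y.length 0 hy.le hL.le (t - 0)
        rw [e0, e1]
        refine lt_of_le_of_ne (h3 a) fun e => ?_
        have := congrArg (fun w : VV L t => w.1.1.length) e
        simp only [brV, br] at this
        have := hlen a
        omega⟩
    exact ⟨t - j, by omega, e0 ▸ j4⟩
  choose j j1 j2 using key
  refine absurd (big_of_inj _ L (fun a => seg t (x a) (hx a) y.length 0 hy.le hL.le (j a)) ?_ j2)
    (not_le.2 (hs _))
  intro a b e
  have := congrArg (fun w : VV L t => w.1.1) e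
  simp only [seg, pt_fst _ _ _ _ _ (j1 a), pt_fst _ _ _ _ _ (j1 b)] at this
  have h4 := List.prefix_of_prefix_length_le (h1 a) (this ▸ h1 b) (by simp)
  have h5 := h4.eq_of_length (by simp)
  simpa using h5

theorem spine (ht : 0 < t) (hs : ∀ v, (GReach (GG L t T) 1 t v).ncard < L) :
    ∃ X : List (Fin L), X.length = L ∧ ∀ i j (hi : (X.take i).length ≤ L)
      (hj : (X.take j).length ≤ L), i < j → j ≤ L → T i j →
        brV t (X.take i) hi < brV t (X.take j) hj := by
  have hch := child (T := T) ht hs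
  choose f hf using hch
  have key : ∀ n, n ≤ L → ∃ X : List (Fin L), X.length = n ∧ ∀ i (hi : (X.take i).length < L),
      i < n → X.take i ++ [f (X.take i) hi] <+: X := by
    intro n
    induction n with
    | zero => intro _; exact ⟨[], rfl, fun i _ h => absurd h (Nat.not_lt_zero _)⟩
    | succ n ih =>
      intro hn
      obtain ⟨X, h1, h2⟩ := ih (by omega)
      refine ⟨X ++ [f X (by omega)], by simp [h1], fun i hi hin => ?_⟩
      have e : (X ++ [f X (by omega)]).take i = X.take i := List.take_append_of_le_length (by omega)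
      have e2 : ∀ (Y Z : List (Fin L)) (hY : Y.length < L) (hZ : Z.length < L), Y = Z →
          Y ++ [f Y hY] = Z ++ [f Z hZ] := by
        rintro Y Z hY hZ rfl
        rfl
      by_cases h : i < n
      · rw [e2 _ _ hi (e ▸ hi) e]
        exact (h2 i _ h).trans (List.prefix_append _ _)
      · have e3 : (X ++ [f X (by omega)]).take i = X := by
          rw [e, List.take_of_length_le (by omega)]
        rw [e2 _ _ hi (by omega) e3]
  obtain ⟨X, h1, h2⟩ := key L le_rfl
  refine ⟨X, h1, fun i j hi hj hij hjL hT => ?_⟩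
  have li : (X.take i).length = i := by rw [List.length_take]; omega
  have lj : (X.take j).length = j := by rw [List.length_take]; omega
  refine hf (X.take i) (by omega) (X.take j) hj ?_ (by rw [li, lj]; exact hT)
  refine List.prefix_of_prefix_length_le (h2 i (by omega) (by omega)) (List.take_prefix _ _) ?_
  simp only [List.length_append, List.length_singleton, li, lj]
  omega

end lower

def TT (K b : ℕ) (i j : ℕ) : Prop := i < j ∧ ∃ e < K, b ^ e ∣ i ∧ j ≤ i + b ^ (e + 1)

theorem next_mul (m L j : ℕ) (hm : 0 < m) (hL : m ∣ L) (hj : j ≤ L) :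
    ∃ j', j ≤ j' ∧ j' ≤ L ∧ m ∣ j' ∧ j' ≤ j + m := by
  rcases hj.eq_or_lt with rfl | hj
  · exact ⟨j, le_rfl, le_rfl, hL, by omega⟩
  obtain ⟨q, rfl⟩ := hL
  have h1 := Nat.div_add_mod j m
  have h2 := Nat.mod_lt j hm
  have h3 : j / m < q := Nat.div_lt_of_lt_mul hj
  refine ⟨m * (j / m + 1), by rw [Nat.mul_add]; omega, Nat.mul_le_mul_left _ h3,
    Dvd.intro _ rfl, by rw [Nat.mul_add]; omega⟩

theorem lower (K b t k l : ℕ) (hK : 1 ≤ K) (hb : 0 < b) (ht : 0 < t) (hk : K ≤ k)
    (hl : K * t ≤ l) : b ^ K ≤ gcol (GG (b ^ K) t (TT K b)) k l := by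
  obtain ⟨σ, hσ⟩ := gcol_spec (GG (b ^ K) t (TT K b)) k l
  by_contra hc
  have hs : ∀ v, (GReach (GG (b ^ K) t (TT K b)) 1 t v).ncard < b ^ K := by
    intro v
    have h1 : t ≤ K * t := Nat.le_mul_of_pos_left _ hK
    have := Set.ncard_le_ncard (reach_mono (GG (b ^ K) t (TT K b)) (hK.trans hk) (h1.trans hl) v)
      (Set.toFinite _)
    have := hσ v
    omega
  obtain ⟨X, hX, hord⟩ := spine ht hs
  have hlen : ∀ i, (X.take i).length ≤ b ^ K := fun i => by rw [List.length_take]; omega
  have key : ∀ i, i ≤ b ^ K → ∀ e, e ≤ K → ∃ j, i ≤ j ∧ j ≤ b ^ K ∧ b ^ e ∣ j ∧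
      RR (GG (b ^ K) t (TT K b)) lv e (e * t) (brV t (X.take j) (hlen j))
        (brV t (X.take i) (hlen i)) := by
    intro i hi e
    induction e with
    | zero => intro _; exact ⟨i, le_rfl, hi, by simp, by simpa using RR_self _ _ _⟩
    | succ e ih =>
      intro he
      obtain ⟨j, j1, j2, j3, j4⟩ := ih (by omega)
      obtain ⟨j', a1, a2, a3, a4⟩ := next_mul (b ^ (e + 1)) (b ^ K) j (by positivity)
        (pow_dvd_pow b he) j2
      refine ⟨j', j1.trans a1, a2, a3, ?_⟩
      rcases a1.eq_or_lt with rfl | a1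
      · exact RR_mono _ _ (by omega) (Nat.mul_le_mul_right _ (by omega)) _ _ j4
      have hT : TT K b j j' := ⟨a1, e, he, j3, a4⟩
      have lj : (X.take j').length = j' := by rw [List.length_take]; omega
      obtain ⟨p, hp, hp2⟩ := hop ht hs (X.take j') (hlen j') j j2 (by omega) (by rw [lj]; exact hT)
      have e0 : seg t (X.take j') (hlen j') j p j2 hp.le 0 = brV t (X.take j') (hlen j') :=
        Subtype.ext (pt_zero t _ j p)
      have e1 : seg t (X.take j') (hlen j') j p j2 hp.le t = brV t (X.take j) (hlen j) := by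
        apply Subtype.ext
        simp only [seg, brV, pt_top t _ j p t ht le_rfl, List.take_take, min_eq_left a1.le]
      have := RR_prepend (GG (b ^ K) t (TT K b)) lv e (e * t) t
        (seg t (X.take j') (hlen j') j p j2 hp.le) (brV t (X.take i) (hlen i))
        (fun s hs => seg_adj t _ _ _ j p j2 hp (by omega) (by rw [lj]; exact hT) s hs)
        (fun s hs => seg_lv t _ _ j p j2 hp.le (by omega) s hs) hp2
        (by rw [e0, e1]; exact hord j j' _ _ a1 a2 hT) (by rw [e1]; exact j4)
      rw [e0] at this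
      rw [Nat.add_mul, one_mul]
      exact this
  have fin : b ^ K ≤ (GReach (GG (b ^ K) t (TT K b)) k l
      (brV t (X.take (b ^ K)) (hlen _))).ncard := by
    refine big_of_inj _ _ (fun a => brV t (X.take (a.1 + 1)) (hlen _)) ?_ ?_
    · intro a a' e
      have := congrArg (fun w : VV (b ^ K) t => w.1.1.length) e
      simp only [brV, br, List.length_take] at this
      have := a.2
      have := a'.2
      apply Fin.ext
      omega
    · intro a
      obtain ⟨j, j1, j2, j3, j4⟩ := key (a.1 + 1) a.2 K le_rfl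
      have : j = b ^ K := le_antisymm j2 (Nat.le_of_dvd (by omega) j3)
      subst this
      exact reach_mono _ hk hl _ (RR_reach _ _ _ _ _ _ j4)
  have := hσ (brV t (X.take (b ^ K)) (hlen _))
  omega

theorem exists_order {V : Type} [Finite V] (ρ : V → ℕ) :
    ∃ σ : LinearOrder V, ∀ u w, σ.le u w → ρ u ≤ ρ w := by
  obtain ⟨e, he⟩ := exists_injective_nat V
  refine ⟨LinearOrder.lift' (fun v => toLex (ρ v, e v))
    (fun u w h => he (congrArg (fun z => (ofLex z).2) h)), fun u w h => ?_⟩
  have h' : toLex (ρ u, e u) ≤ toLex (ρ w, e w) := h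
  rw [Prod.Lex.toLex_le_toLex] at h'
  rcases h' with h' | h'
  · exact le_of_lt h'
  · exact le_of_eq h'.1

def rho {L t : ℕ} (w : VV L t) : ℕ := if w.1.2.2.2 = 0 then w.1.1.length else L + 1

theorem mid_of {L : ℕ} (t : ℕ) (x : List (Fin L)) (i p s : ℕ) (h : (pt t x i p s).2.2.2 ≠ 0) :
    pt t x i p s = (x, i, p, s) := by
  unfold pt at h ⊢
  split_ifs at h ⊢
  · exact absurd rfl h
  · rfl
  · exact absurd rfl h

theorem pt_pre {L : ℕ} (t : ℕ) (x : List (Fin L)) (i p s : ℕ) : (pt t x i p s).1 <+: x := by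
  unfold pt
  split_ifs
  · exact List.prefix_refl _
  · exact List.prefix_refl _
  · exact List.take_prefix _ _

theorem card_le_of_val {L t : ℕ} (S : Set (VV L t)) (F : Finset (W L)) (h : ∀ u ∈ S, u.1 ∈ F) :
    S.ncard ≤ F.card := by
  rw [← Set.ncard_coe_finset]
  exact Set.ncard_le_ncard_of_injOn Subtype.val h Subtype.val_injective.injOn (F.finite_toSet)

def cov (K b d : ℕ) : Finset ℕ :=
  (Finset.range K).biUnion fun e => (Finset.Ico (d - b ^ (e + 1)) d).filter (b ^ e ∣ ·)

theorem card_mul_le (m b d : ℕ) (hm : 0 < m) :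
    ((Finset.Ico (d - m * b) d).filter (m ∣ ·)).card ≤ b := by
  refine le_trans (Finset.card_le_card_of_injOn (t := Finset.range b)
    (fun i => (i - (d - m * b)) / m) ?_ ?_) (by simp)
  · intro i hi
    simp only [Finset.coe_filter, Finset.mem_Ico, Set.mem_ofPred_eq] at hi
    simp only [Finset.coe_range, Set.mem_Iio]
    exact Nat.div_lt_of_lt_mul (by omega)
  · have key : ∀ i j, d - m * b ≤ i → m ∣ i → m ∣ j → i < j →
        (i - (d - m * b)) / m < (j - (d - m * b)) / m := by
      intro i j h1 h2 h3 h4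
      have h5 : m ≤ j - i := Nat.le_of_dvd (by omega) (Nat.dvd_sub h3 h2)
      calc (i - (d - m * b)) / m < (i - (d - m * b) + m) / m := by
            rw [Nat.add_div_right _ hm]; omega
        _ ≤ _ := Nat.div_le_div_right (by omega)
    intro i hi j hj e
    simp only [Finset.coe_filter, Finset.mem_Ico, Set.mem_ofPred_eq] at hi hj
    simp only at e
    rcases lt_trichotomy i j with h | h | h
    · have := key i j hi.1.1 hi.2 hj.2 h; omega
    · exact h
    · have := key j i hj.1.1 hj.2 hi.2 h; omega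

theorem card_cov (K b d : ℕ) (hb : 0 < b) : (cov K b d).card ≤ K * b := by
  refine (Finset.card_biUnion_le_card_mul _ _ b fun e _ => ?_).trans (by simp)
  rw [pow_succ]
  exact card_mul_le _ _ _ (by positivity)

theorem mem_cov (K b d i j : ℕ) (h : TT K b i j) (h1 : i < d) (h2 : d ≤ j) : i ∈ cov K b d := by
  obtain ⟨-, e, e1, e2, e3⟩ := h
  simp only [cov, Finset.mem_biUnion, Finset.mem_range, Finset.mem_filter, Finset.mem_Ico]
  exact ⟨e, e1, ⟨by omega, h1⟩, e2⟩

section upper

variable {L t : ℕ} [LinearOrder (VV L t)]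

theorem up_mid {T : ℕ → ℕ → Prop} (hρ : ∀ u w : VV L t, u ≤ w → rho u ≤ rho w) (r : ℕ)
    (v : VV L t) (hv : v.1.2.2.2 ≠ 0) : (GReach (GG L t T) 1 r v).ncard ≤ 2 * r + 2 := by
  classical
  refine (card_le_of_val _ (insert v.1 ((Finset.Icc (v.1.2.2.2 - r) (v.1.2.2.2 + r)).image
    (pt t v.1.1 v.1.2.1 v.1.2.2.1))) fun u hu => ?_).trans ?_
  · obtain ⟨s, x, h1, h2, h3, h4, h5, -⟩ := strong_int _ r v u hu
    have key : ∀ n, n ≤ s → n = 0 ∨ ∃ a, a ≤ v.1.2.2.2 + n ∧ v.1.2.2.2 ≤ a + n ∧
        (x n).1 = pt t v.1.1 v.1.2.1 v.1.2.2.1 a := by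
      intro n
      induction n with
      | zero => intro _; exact Or.inl rfl
      | succ n ih =>
        intro hn
        right
        have hm : (x n).1.2.2.2 ≠ 0 := by
          intro h0
          have := hρ _ _ (h5 n hn)
          have := (x n).2.1
          simp only [rho, hv, h0, if_true, if_false] at *
          omega
        have q : ∃ a, a ≤ v.1.2.2.2 + n ∧ v.1.2.2.2 ≤ a + n ∧
            (x n).1 = (v.1.1, v.1.2.1, v.1.2.2.1, a) := by
          rcases ih (by omega) with rfl | ⟨a, a1, a2, a3⟩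
          · exact ⟨v.1.2.2.2, by omega, by omega, by rw [h2]⟩
          · exact ⟨a, a1, a2, a3.trans (mid_of _ _ _ _ _ (a3 ▸ hm))⟩
        obtain ⟨a, a1, a2, a3⟩ := q
        obtain ⟨X, i, p, c, c', -, -, -, c3, c4, c5⟩ := adj_cases (h4 n hn)
        have := a3.symm.trans (c4.trans (mid_of _ _ _ _ _ (c4 ▸ hm)))
        simp only [Prod.mk.injEq] at this
        obtain ⟨e1, e2, e3, e4⟩ := this
        exact ⟨c', by omega, by omega, by rw [c5, e1, e2, e3]⟩
    rw [Finset.mem_insert, Finset.mem_image]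
    rcases key s le_rfl with rfl | ⟨a, a1, a2, a3⟩
    · left; rw [← h3, h2]
    · right
      exact ⟨a, by rw [Finset.mem_Icc]; omega, by rw [← a3, h3]⟩
  · refine (Finset.card_insert_le _ _).trans ?_
    have := Finset.card_image_le (s := Finset.Icc (v.1.2.2.2 - r) (v.1.2.2.2 + r))
      (f := pt t v.1.1 v.1.2.1 v.1.2.2.1)
    rw [Nat.card_Icc] at this
    omega

theorem up_br {K b : ℕ} (hb : 0 < b) (ht : 0 < t) (hρ : ∀ u w : VV L t, u ≤ w → rho u ≤ rho w)
    (r : ℕ) (v : VV L t) (hv : v.1.2.2.2 = 0) :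
    (GReach (GG L t (TT K b)) 1 r v).ncard ≤ K * b + 2 := by
  classical
  refine (card_le_of_val _ (insert v.1 (insert (br v.1.1) ((cov K b v.1.1.length).image
    fun i => br (v.1.1.take i)))) fun u hu => ?_).trans ?_
  · obtain ⟨s, x, h1, h2, h3, h4, h5, h6⟩ := strong_int _ r v u hu
    have rv : rho v = v.1.1.length := if_pos hv
    have key : ∀ n, n < s → v.1.1 <+: (x n).1.1 := by
      intro n
      induction n with
      | zero => intro _; rw [h2]
      | succ n ih =>
        intro hn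
        obtain ⟨X, i, p, c, c', -, -, c2, -, c4, c5⟩ := adj_cases (h4 n (by omega))
        have hX : v.1.1 <+: X := (ih (by omega)).trans (c4 ▸ pt_pre _ _ _ _ _)
        by_cases h : c' < t
        · rw [c5, pt_fst _ _ _ _ _ h]; exact hX
        · have e : (x (n + 1)).1 = br (X.take i) := c5.trans (pt_top _ _ _ _ _ ht (by omega))
          have := hρ _ _ (h5 (n + 1) hn)
          rw [rv] at this
          simp only [rho, e, br, if_true] at this
          rw [e]
          exact List.prefix_of_prefix_length_le hX (List.take_prefix _ _) this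
    simp only [Finset.mem_insert, Finset.mem_image]
    rcases Nat.eq_zero_or_pos s with rfl | hs
    · left; rw [← h3, h2]
    right
    obtain ⟨n, rfl⟩ : ∃ n, s = n + 1 := ⟨s - 1, by omega⟩
    have huv : u < v := h6.resolve_left (by omega)
    obtain ⟨X, i, p, c, c', c0, -, c2, -, c4, c5⟩ := adj_cases (h4 n (by omega))
    have hX : v.1.1 <+: X := (key n (by omega)).trans (c4 ▸ pt_pre _ _ _ _ _)
    rw [h3] at c5
    have h7 := hρ _ _ huv.le
    rw [rv] at h7
    have h8 : u.1.2.2.2 = 0 := by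
      by_contra h0
      have := v.2.1
      simp only [rho, h0, if_false] at h7
      omega
    simp only [rho, h8, if_true] at h7
    by_cases h : c' < t
    · left
      have : c' = 0 := by rw [← pt_s t X i p c' h, ← c5, h8]
      rw [this, pt_zero] at c5
      rw [c5] at h7 ⊢
      rw [hX.eq_of_length_le h7]
    · have e : u.1 = br (X.take i) := c5.trans (pt_top _ _ _ _ _ ht (by omega))
      have hi : i ≤ v.1.1.length := by
        have := c0.1
        simp only [e, br, List.length_take] at h7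
        omega
      have e2 : X.take i = v.1.1.take i := by
        obtain ⟨z, rfl⟩ := hX
        exact List.take_append_of_le_length hi
      rcases hi.eq_or_lt with h' | h'
      · left; rw [e, e2, h', List.take_length]
      · right
        exact ⟨i, mem_cov K b _ i _ c0 h' hX.length_le, by rw [e, e2]⟩
  · refine (Finset.card_insert_le _ _).trans ?_
    have h1 := Finset.card_insert_le (br v.1.1) ((cov K b v.1.1.length).image
      fun i => br (v.1.1.take i))
    have h2 := Finset.card_image_le (s := cov K b v.1.1.length) (f := fun i => br (v.1.1.take i))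
    have := card_cov K b v.1.1.length hb
    omega

theorem up_short {T : ℕ → ℕ → Prop} (hρ : ∀ u w : VV L t, u ≤ w → rho u ≤ rho w)
    (r : ℕ) (hr : r < t) (v : VV L t) (hv : v.1.2.2.2 = 0) :
    (GReach (GG L t T) 1 r v).ncard ≤ 1 := by
  classical
  refine (card_le_of_val _ {v.1} fun u hu => ?_).trans (by simp)
  obtain ⟨s, x, h1, h2, h3, h4, -, h6⟩ := strong_int _ r v u hu
  let ψ : W L → ℕ := fun w => if w.2.2.2 = 0 then (if w = v.1 then 0 else t) else
    min (if br w.1 = v.1 then w.2.2.2 else t) (if br (w.1.take w.2.1) = v.1 then t - w.2.2.2 else t)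
  have hψ : ∀ X i p a, a ≤ t → ψ (pt t X i p a) =
      min (if br X = v.1 then a else t) (if br (X.take i) = v.1 then t - a else t) := by
    intro X i p a ha
    rcases Nat.eq_zero_or_pos a with rfl | h0
    · rw [pt_zero]
      have : ψ (br X) = if br X = v.1 then 0 else t := if_pos rfl
      rw [this]
      split_ifs <;> omega
    by_cases h : a < t
    · rw [pt_mid _ _ _ _ _ h0 h]
      exact if_neg h0.ne'
    · rw [pt_top _ _ _ _ _ (by omega) (by omega)]
      have : ψ (br (X.take i)) = if br (X.take i) = v.1 then 0 else t := if_pos rfl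
      rw [this]
      split_ifs <;> omega
  have key : ∀ n, n ≤ s → ψ (x n).1 ≤ n := by
    intro n
    induction n with
    | zero =>
      intro _
      rw [h2]
      simp only [ψ, hv, if_true, le_refl]
    | succ n ih =>
      intro hn
      have := ih (by omega)
      obtain ⟨X, i, p, c, c', -, c1, c2, c3, c4, c5⟩ := adj_cases (h4 n hn)
      rw [c4, hψ _ _ _ _ c1] at this
      rw [c5, hψ _ _ _ _ c2]
      split_ifs at this ⊢ <;> omega
  rw [Finset.mem_singleton]
  rcases h6 with rfl | huv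
  · rw [← h3, h2]
  by_contra hne
  have h7 := hρ _ _ huv.le
  have h8 : u.1.2.2.2 = 0 := by
    by_contra h0
    have := v.2.1
    simp only [rho, h0, hv, if_false, if_true] at h7
    omega
  have := key s le_rfl
  rw [h3] at this
  simp only [ψ, h8, hne, if_true, if_false] at this
  omega

end upper

theorem upper (L K b r : ℕ) (hK : 0 < K) (hb : 0 < b) :
    gcol (GG L (K * b) (TT K b)) 1 r ≤ 2 * r + 2 := by
  obtain ⟨σ, hσ⟩ := exists_order (rho (L := L) (t := K * b))
  refine gcol_le _ _ _ _ σ fun v => ?_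
  by_cases hv : v.1.2.2.2 = 0
  · by_cases hr : r < K * b
    · exact (up_short hσ r hr v hv).trans (by omega)
    · exact (up_br hb (by positivity) hσ r v hv).trans (by omega)
  · exact up_mid hσ r v hv

theorem poly_bound (q : Polynomial ℝ) : ∃ A D : ℕ, ∀ l : ℕ, 1 ≤ l →
    q.eval (l : ℝ) ≤ (A : ℝ) * (l : ℝ) ^ D := by
  obtain ⟨A, hA⟩ := exists_nat_ge (∑ i ∈ Finset.range (q.natDegree + 1), |q.coeff i|)
  refine ⟨A, q.natDegree, fun l hl => ?_⟩
  have h1 : (1 : ℝ) ≤ l := by exact_mod_cast hl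
  rw [Polynomial.eval_eq_sum_range]
  refine le_trans (Finset.sum_le_sum (g := fun i => |q.coeff i| * (l : ℝ) ^ q.natDegree)
    fun i hi => ?_) ?_
  · refine mul_le_mul (le_abs_self _) (pow_le_pow_right₀ h1 ?_) (by positivity) (abs_nonneg _)
    rw [Finset.mem_range] at hi
    omega
  · rw [← Finset.sum_mul]
    exact mul_le_mul_of_nonneg_right hA (by positivity)

theorem bdd_of_hasP (k : ℕ → ℕ) (hk : ∀ l, 1 ≤ l → k l ≤ l) (h : HasP k) :
    ∃ K, ∀ l, 1 ≤ l → k l ≤ K := by
  obtain ⟨q, hq⟩ := h (fun V _ G => ∀ l : ℕ, gcol G 1 l ≤ 2 * l + 2)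
    ⟨2 * Polynomial.X + 2, fun V _ G hG l _ => by
      simp only [Polynomial.eval_add, Polynomial.eval_mul, Polynomial.eval_X,
        Polynomial.eval_ofNat]
      exact_mod_cast hG l⟩
  obtain ⟨A, D, hA⟩ := poly_bound q
  set K := D + 1 with hK
  set M := K * K with hM
  have K0 : 0 < K := by omega
  have M0 : 0 < M := by positivity
  refine ⟨A * (2 * M) ^ K + M + K, fun l hl => ?_⟩
  by_contra hc
  have h1 := hk l hl
  have b0 : 0 < l / M := Nat.div_pos (by omega) M0
  have h2 : K * (K * (l / M)) ≤ l := by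
    rw [← mul_assoc]
    exact Nat.mul_div_le l M
  have h3 := lower K (l / M) (K * (l / M)) (k l) l K0 b0 (by positivity) (by omega) h2
  have h4 := (hq _ (GG ((l / M) ^ K) (K * (l / M)) (TT K (l / M)))
    (fun r => upper _ _ _ r K0 b0) l hl).trans (hA l hl)
  have h5 : (l / M) ^ K ≤ A * l ^ D := h3.trans (by exact_mod_cast h4)
  have h6 : l ≤ 2 * M * (l / M) := by
    have e1 := Nat.div_add_mod l M
    have e2 := Nat.mod_lt l M0
    have e3 : M ≤ M * (l / M) := Nat.le_mul_of_pos_right _ b0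
    rw [mul_assoc]
    omega
  have h7 : l ^ D * l ≤ l ^ D * (A * (2 * M) ^ K) := by
    calc l ^ D * l = l ^ K := by rw [hK, pow_succ]
      _ ≤ (2 * M * (l / M)) ^ K := Nat.pow_le_pow_left h6 _
      _ = (2 * M) ^ K * (l / M) ^ K := mul_pow _ _ _
      _ ≤ (2 * M) ^ K * (A * l ^ D) := Nat.mul_le_mul_left _ h5
      _ = _ := by ring
  have h8 := Nat.le_of_mul_le_mul_left h7 (by positivity)
  omega

end Pool.Agent.H.MP_7edec4_co
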